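import Pool.Agent.Y333.RP.CoCh

/-!
# A sharper co-chordal bound for the regularity of the powers of an edge ideal

Definitions used (files `Pool.Agent.H677R3.RegKoszul`, `RegDeg` and `AbSusp`, and the starting file
`Pool.Agent.Results.MP_9b0fed_al.CoChordalBound`):
* `edgeIdeal k G` is the ideal of `k[x_0,…,x_{n-1}]` spanned by the `x_i x_j`, `i` adjacent to `j`;
* `TorNe J i e`: the Koszul homology `H_i(x_1,…,x_n; J) = Tor_i(J, k)` is nonzero in internal
  degree `i + e`;
* `IsReg J r`: `r` is the greatest `e` such that `TorNe J i e` for some `i`, i.e. `reg J = r`;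
* `away G x y`: the graph which has only the edges `uv` of `G` with `u`, `v` different from `x`, `y`
  and not adjacent to them;
* `coChord G`: the co-chordal cover number of `G`.
-/

universe u

namespace Pool.Agent.Results.MP_9b0fed_al.SharperBound

open Pool.Agent.H677R3.EdgeReg Pool.Agent.H677R3.Ab Pool.Agent.Y333.RP
open Pool.Agent.Results.MP_9b0fed_al.CoChordalBound (coChord)

/-- Let `G` be a graph with an edge and `c = co-chord(G)`. Then `co-chord(away G x y) ≤ c - 1` for
every edge `xy`. Let `c'` be a bound for `co-chord(away G x y)`, `xy` an edge (so one may take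
`c' ≤ c - 1`). Then `reg I(G)^q ≤ max (q + c) (2 q + c')` for every `q ≥ 1`, which for
`c' ≤ c - 1` is at most `2 q + c - 1`. -/
theorem result : ∀ (k : Type u) [Field k] (n : ℕ) (G : SimpleGraph (Fin n)),
    (∃ u v, G.Adj u v) → (∀ x y, G.Adj x y → coChord (away G x y) + 1 ≤ coChord G) ∧
      ∀ q : ℕ, 1 ≤ q → ∃ s : ℕ, IsReg ((edgeIdeal k G) ^ q) s ∧
        s ≤ 2 * q + coChord G - 1 ∧
        ∀ c' : ℕ, (∀ x y, G.Adj x y → coChord (away G x y) ≤ c') →
          s ≤ max (q + coChord G) (2 * q + c') := by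
  intro k _ n G hG
  refine ⟨fun x y hxy => coChord_away G hxy, fun q hq => ?_⟩
  obtain ⟨r, σ, h1, h2, h3, h4⟩ := formula' k G hG
  have hσ : 1 ≤ σ := h2.2 (Or.inl rfl)
  obtain ⟨s, hs, hs2⟩ := CoChordalBound.result k n G hG q hq
  have h5 : s = _ := hs.unique (h4 q hq)
  obtain ⟨t, ht, ht2⟩ := CoChordalBound.result k n G hG 1 le_rfl
  rw [pow_one] at ht
  have h6 : t = r := ht.unique h1
  refine ⟨s, hs, hs2, fun c' hc' => ?_⟩
  have h7 : σ ≤ c' + 1 := by
    rcases h2.1 with h | ⟨x, y, hxy, hσr⟩
    · have : σ = 1 := h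
      omega
    · by_cases hE : ∃ u v, (away G x y).Adj u v
      · obtain ⟨t', ht', ht2'⟩ := CoChordalBound.result k n (away G x y) hE 1 le_rfl
        rw [pow_one] at ht'
        have h8 : t' = σ := ht'.unique hσr
        have h9 := hc' x y hxy
        omega
      · have := isReg_le (k := k) (away G x y) 1 σ le_rfl
          (fun U0 j hj => hv_of_no_edge _ hE U0 j hj) hσr
        omega
  omega

end Pool.Agent.Results.MP_9b0fed_al.SharperBound
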